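import Pool.Agent.H37.CNS.Stmts
import Pool.Agent.H18.CNZ.CCO
import Pool.Agent.H54.CNZ.TRS

/-!
# Row ASG of the board `cns`: an Artin-Schreier generator for a character of order `p`
-/

set_option autoImplicit false

namespace Pool.CND

open Polynomial IntermediateField

/-- a place with `0 < ord (t - a)` -/
theorem asg_place (hEXI : S_EXI) {k L G : Type} [Field k] [IsAlgClosed k] [Field L] [Algebra k L]
    [Group G] [Finite G] (ρ : G →* (L ≃ₐ[k] L)) (t : L) (h : IsCover ρ t) (a : k) :
    ∃ P : Place k L, 0 < P.ord (t - algebraMap k L a) ∧ 0 ≤ P.ord t := by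
  classical
  cases nonempty_fintype G
  obtain ⟨hfin, hsep⟩ := trs_fin_sep ρ t h
  have htr0 : Transcendental k (t - algebraMap k L a) := by
    intro hal
    apply h.trans
    have := hal.add (isAlgebraic_algebraMap (R := k) (A := L) a)
    rwa [sub_add_cancel] at this
  have h0 : t - algebraMap k L a ≠ 0 := fun h1 => htr0 (by rw [h1]; exact isAlgebraic_zero)
  have hE := trs_adjoin_inv t a
  obtain ⟨P, hP⟩ := hEXI k L (t - algebraMap k L a)⁻¹ (fun hal => htr0 (by simpa using hal.inv))
    (by rw [hE]; exact hfin) (by rw [hE]; exact hsep)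
  have hPa : 0 < P.ord (t - algebraMap k L a) := by
    rw [P.ord_inv h0] at hP
    omega
  have hPt : P.Ge t 0 := by
    have h1 : P.Ge (t - algebraMap k L a) 0 := Or.inr hPa.le
    have h2 := P.ge_add h1 (P.ge_const a)
    rwa [sub_add_cancel] at h2
  have ht0 : t ≠ 0 := by
    rintro rfl
    exact h.trans isAlgebraic_zero
  exact ⟨P, hPa, hPt.resolve_left ht0⟩

/-- a regular element of `k(t)` is a polynomial in `t` -/
theorem asg_poly (hEXI : S_EXI) {k L G : Type} [Field k] [IsAlgClosed k] [Field L] [Algebra k L]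
    [Group G] [Finite G] (ρ : G →* (L ≃ₐ[k] L)) (t : L) (h : IsCover ρ t) (Z : L)
    (hZ : Reg k t Z) : ∀ (n : ℕ) (r s : k[X]), s.natDegree = n → s ≠ 0 →
    Z * aeval t s = aeval t r → ∃ f : k[X], Z = aeval t f := by
  intro n
  have hinj : ∀ q : k[X], aeval t q = 0 → q = 0 := by
    intro q hq
    by_contra hne
    exact h.trans ⟨q, hne, hq⟩
  induction n with
  | zero =>
    intro r s hs hs0 he
    obtain ⟨c, hc⟩ := Polynomial.natDegree_eq_zero.1 hs
    have hc0 : c ≠ 0 := by
      rintro rfl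
      exact hs0 (by rw [← hc, C_0])
    refine ⟨C c⁻¹ * r, ?_⟩
    rw [map_mul, ← he, ← hc, aeval_C, aeval_C, mul_left_comm, ← map_mul, inv_mul_cancel₀ hc0,
      map_one, mul_one]
  | succ n ih =>
    intro r s hs hs0 he
    by_cases hZ0 : Z = 0
    · exact ⟨0, by rw [hZ0, map_zero]⟩
    have hd : s.degree ≠ 0 := by
      intro hd
      have h1 : s.natDegree = 0 := natDegree_eq_of_degree_eq_some hd
      omega
    obtain ⟨a, ha⟩ := IsAlgClosed.exists_root s hd
    obtain ⟨s', hs'⟩ := dvd_iff_isRoot.2 ha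
    have hs'0 : s' ≠ 0 := by
      rintro rfl
      exact hs0 (by rw [hs', mul_zero])
    have hX : (X - C a : k[X]) ≠ 0 := X_sub_C_ne_zero a
    have hdeg : s'.natDegree = n := by
      have := natDegree_mul hX hs'0
      rw [← hs', natDegree_X_sub_C] at this
      omega
    by_cases hr : r.IsRoot a
    · obtain ⟨r', hr'⟩ := dvd_iff_isRoot.2 hr
      refine ih r' s' hdeg hs'0 ?_
      have hta : aeval t (X - C a) ≠ 0 := fun h0 => hX (hinj _ h0)
      rw [hs', hr', map_mul, map_mul] at he
      apply mul_left_cancel₀ hta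
      rw [← he]
      ring
    · exfalso
      obtain ⟨P, hP, hPt⟩ := asg_place hEXI ρ t h a
      have ht0 : P.Ge t 0 := Or.inr hPt
      obtain ⟨r', hr'⟩ : (X - C a) ∣ (r - C (r.eval a)) := by
        rw [dvd_iff_isRoot]
        simp [IsRoot]
      have hra : r.eval a ≠ 0 := hr
      have e1 : aeval t r = algebraMap k L (r.eval a) + aeval t (X - C a) * aeval t r' := by
        rw [← map_mul, ← hr', map_sub, aeval_C]
        ring
      have hPX : P.Ge (aeval t (X - C a)) 1 := by
        rw [map_sub, aeval_X, aeval_C]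
        exact Or.inr (by omega)
      have e2 : P.Ge (aeval t (X - C a) * aeval t r') 1 := by
        have := P.ge_mul hPX (trs_poly P t ht0 r')
        simpa using this
      have e3 : P.Ge (aeval t s) 1 := by
        rw [hs', map_mul]
        have := P.ge_mul hPX (trs_poly P t ht0 s')
        simpa using this
      have e4 : P.Ge (Z * aeval t s) 1 := by
        have := P.ge_mul (show P.Ge Z 0 from hZ P hPt) e3
        simpa using this
      rw [he] at e4
      have e5 : P.Ge (algebraMap k L (r.eval a)) 1 := by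
        have := P.ge_add e4 (P.ge_neg e2)
        rw [e1] at this
        rwa [add_neg_cancel_right] at this
      rcases e5 with e5 | e5
      · exact hra ((map_eq_zero _).1 e5)
      · rw [P.ord_const _ hra] at e5
        omega

theorem asg_fp_add {p : ℕ} (k : Type) [Field k] [CharP k p] (a b : ZMod p) :
    fp k (a + b) = fp k a + fp k b := map_add _ _ _

theorem asg_fp_sub {p : ℕ} (k : Type) [Field k] [CharP k p] (a b : ZMod p) :
    fp k (a - b) = fp k a - fp k b := map_sub _ _ _

theorem asg_fp_zero {p : ℕ} (k : Type) [Field k] [CharP k p] : fp k (0 : ZMod p) = 0 :=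
  map_zero _

theorem asg_fp_inj {p : ℕ} [Fact p.Prime] (k : Type) [Field k] [CharP k p] (a : ZMod p)
    (h : fp k a = 0) : a = 0 := by
  rw [← asg_fp_zero k (p := p)] at h
  exact (ZMod.castHom (dvd_refl p) k).injective h

theorem asg_fp_pow {p : ℕ} [Fact p.Prime] (k : Type) [Field k] [CharP k p] (a : ZMod p) :
    fp k a ^ p = fp k a := by
  change (ZMod.castHom (dvd_refl p) k a) ^ p = ZMod.castHom (dvd_refl p) k a
  rw [← map_pow, ZMod.pow_card]

theorem asg_thm (hTRS : S_TRS) (hEXI : S_EXI) (hXRD : S_XRD) : S_ASG := by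
  classical
  intro p k L G _ _ _ _ _ _ _ ρ t y hp hcov hy
  have hpf : Fact p.Prime := ⟨hp⟩
  have hcL : CharP L p := charP_of_injective_algebraMap (algebraMap k L).injective p
  by_cases hy0 : ∀ g : G, y g = 0
  · refine ⟨0, 0, ?_, ?_, Or.inl ⟨hy0, rfl, rfl⟩⟩
    · rw [map_zero, zero_pow hp.ne_zero, sub_zero]
    · intro g
      rw [hy0 g, asg_fp_zero, map_zero, map_zero, add_zero]
  have hy1 : ∃ g : G, y g ≠ 0 := by
    by_contra hcon
    push Not at hcon
    exact hy0 hcon
  cases nonempty_fintype G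
  obtain ⟨θ, hθ, htr⟩ := hTRS k L G ρ t hcov
  rw [finsum_eq_sum_of_fintype] at htr
  have ht : ∀ g : G, ρ g t = t := (hcov.fixed t).2 (mem_adjoin_simple_self k t)
  have hfa : ∀ (g : G) (q : k[X]), ρ g (aeval t q) = aeval t q := by
    intro g q
    have h1 := aeval_algHom_apply (ρ g : L →ₐ[k] L) t q
    have h2 : (ρ g : L →ₐ[k] L) t = t := ht g
    rw [h2] at h1
    exact h1.symm
  set w : G → L := fun g => algebraMap k L (fp k (y g)) with hw
  have hwp : ∀ g, w g ^ p = w g := fun g => by
    rw [hw]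
    change algebraMap k L (fp k (y g)) ^ p = algebraMap k L (fp k (y g))
    rw [← map_pow, asg_fp_pow]
  set Y : L := -∑ u, w u * ρ u θ with hY
  have hYg : ∀ g : G, ρ g Y = Y + w g := by
    intro g
    have h1 := CCO18.vr_tw ρ w θ htr (fun u v => by
      change algebraMap k L (fp k (y (u * v))) = algebraMap k L (fp k (y u)) +
        ρ u (algebraMap k L (fp k (y v)))
      rw [hy, asg_fp_add, map_add, AlgEquiv.commutes]) g
    rw [← hY] at h1
    rw [← h1]
    ring
  have hZ : Y ^ p - Y ∈ adjoin k {t} := by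
    rw [← hcov.fixed]
    intro g
    rw [map_sub, map_pow, hYg, add_pow_char, hwp]
    ring
  have hZr : Reg k t (Y ^ p - Y) := by
    intro P hP
    rw [← CCO18.mem_vr]
    have hθP : ∀ u, ρ u θ ∈ CCO18.vr P := CCO18.reg_tw ρ t θ hcov hθ P hP
    have hwP : ∀ u, w u ∈ CCO18.vr P := fun u => (P.ge_const (fp k (y u)))
    have hYP : Y ∈ CCO18.vr P :=
      Subring.neg_mem _ (Subring.sum_mem _ fun u _ => Subring.mul_mem _ (hwP u) (hθP u))
    exact Subring.sub_mem _ (Subring.pow_mem _ hYP p) hYP
  obtain ⟨r, s, hrs⟩ := (mem_adjoin_simple_iff k _).1 hZ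
  obtain ⟨f0, hf0⟩ : ∃ f : k[X], Y ^ p - Y = aeval t f := by
    by_cases hs : aeval t s = 0
    · refine ⟨0, ?_⟩
      rw [hrs, hs, div_zero, map_zero]
    · have hs0 : s ≠ 0 := by
        rintro rfl
        exact hs (map_zero _)
      refine asg_poly hEXI ρ t hcov _ hZr s.natDegree r s rfl hs0 ?_
      rw [hrs, div_mul_cancel₀ _ hs]
  have hkey : ∀ q : k[X], (Y - aeval t q) ^ p - (Y - aeval t q) = aeval t (f0 - (q ^ p - q)) := by
    intro q
    rw [sub_pow_char, map_sub, ← hf0, map_sub, map_pow]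
    ring
  have hact : ∀ (q : k[X]) (g : G), ρ g (Y - aeval t q) = Y - aeval t q +
      algebraMap k L (fp k (y g)) := by
    intro q g
    rw [map_sub, hfa, hYg]
    change Y + algebraMap k L (fp k (y g)) - aeval t q = _
    ring
  rcases hXRD p k f0 hp with ⟨q, hq⟩ | ⟨D, q, hD1, hDp, hDd⟩
  · exfalso
    have h1 := hkey q
    rw [hq, sub_self, map_zero] at h1
    have hint : IsIntegral k (Y - aeval t q) := by
      refine ⟨X ^ p - X, ?_, ?_⟩
      · exact monic_X_pow_sub (by rw [degree_X]; exact_mod_cast hp.one_lt)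
      · rw [eval₂_sub, eval₂_pow, eval₂_X]
        exact h1
    have h2 : (minpoly k (Y - aeval t q)).degree = 1 :=
      IsAlgClosed.degree_eq_one_of_irreducible k (minpoly.irreducible hint)
    obtain ⟨c, hc⟩ := minpoly.mem_range_of_degree_eq_one k _ h2
    obtain ⟨g, hg⟩ := hy1
    have h3 := hact q g
    rw [← hc, AlgEquiv.commutes] at h3
    have h4 : algebraMap k L (fp k (y g)) = 0 := left_eq_add.1 h3
    exact hg (asg_fp_inj k _ ((map_eq_zero _).1 h4))
  · refine ⟨Y - aeval t q, f0 - (q ^ p - q), hkey q, hact q, Or.inr ⟨hy1, ?_, ?_⟩⟩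
    · rw [hDd]; exact hD1
    · rw [hDd]; exact hDp

end Pool.CND
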